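import Mathlib
import Pool.Agent.TH71.Game
import Pool.Agent.TH71.FreeGrowth

/-!
# A radical class of groups closed under Cartesian products

There is a radical class of groups which is closed under Cartesian products, contains all abelian
groups (in particular the infinite cyclic group) and does not contain the free group of rank two.

The class consists of the groups in which one player wins an infinite game of perfect information.
A position is `(a, us, w, v)`; its value `b` is an iterated commutator of `a` with the entries of
`us` and then with `w`. In a round the first player factors `a = a' * a''`, the second player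
selects one of the factors and one of the parameters `w`, `v`, and the next position has the
parameters `b ^ w` (or `b ^ v`) and `b`. At the end the second player names exponents `k m`, and
the first player has to solve the infinite system
`z m = (z (m+1)) ^ (-k m) * w m * (z (m+1)) ^ (2 * k m) * v m * (z (m+1)) ^ (-k m)`.
In a free group the second player keeps `w m` and `v m` non-commuting, and then the lengths of the
`z m` would have to decrease for ever.
-/

universe u

namespace Pool.Agent.Results.MP_cf13c7_al.CartesianRadical

open Pool.Agent.TH71.Game Pool.Agent.TH71.FreeGrowth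
open Pool.Agent.Helper180.FreeMetric (comm_trans)

/-- A class `K` of groups is radical if it is closed under homomorphic images, under normal
subgroups, and contains every group that is generated by its normal subgroups lying in `K`. -/
def IsRadicalClass (K : ∀ (G : Type u) [Group G], Prop) : Prop :=
  (∀ (G H : Type u) [Group G] [Group H] (f : G →* H), Function.Surjective f → K G → K H) ∧
  (∀ (G : Type u) [Group G] (N : Subgroup G), N.Normal → K G → K N) ∧
  (∀ (G : Type u) [Group G], sSup {N : Subgroup G | N.Normal ∧ K N} = ⊤ → K G)

/-- A class `K` of groups is closed under Cartesian (unrestricted direct) products. -/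
def ClosedUnderProducts (K : ∀ (G : Type u) [Group G], Prop) : Prop :=
  ∀ (ι : Type u) (G : ι → Type u) [∀ i, Group (G i)], (∀ i, K (G i)) → K (∀ i, G i)

section Val

variable {G : Type u} [Group G]

theorem val_mul : ∀ (us : List G) (a b : G), val (a * b) us = val a us * val b (cjl a us)
  | [], _, _ => rfl
  | u :: us, a, b => by
    simp only [val, cjl]
    rw [cm_mul, val_mul us]

theorem val_append (w : G) : ∀ (us : List G) (a : G), val a (us ++ [w]) = cm w (val a us)
  | [], _ => rfl
  | u :: us, a => by
    simp only [val, List.cons_append]
    exact val_append w us _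

theorem bb_half1 (p : Pos G) (a' : G) :
    bb p = bb (half1 p a' true) * bb (half1 p a' false) := by
  have h1 : val p.a p.us = val a' p.us * val (a'⁻¹ * p.a) (cjl a' p.us) := by
    rw [← val_mul, mul_inv_cancel_left]
  simp only [bb, half1, if_true, Bool.false_eq_true, if_false]
  rw [h1, cm_mul]

theorem val_half2 (q : Pos G) (o : Bool) : val (half2 q o).a (half2 q o).us = bb q := by
  have h1 : val (half2 q o).a (half2 q o).us = val q.a (q.us ++ [q.w]) := by
    simp only [half2]
    cases q.us <;> rfl
  rw [h1, val_append]
  rfl

theorem cm_ne_one {x y : G} (h : x * y ≠ y * x) : cm x y ≠ 1 := by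
  intro h1
  apply h
  simp only [cm] at h1
  rw [inv_mul_eq_one] at h1
  calc x * y = y * (y⁻¹ * x * y) := by group
    _ = y * x := by rw [← h1]

end Val

/-- Positions in a free group from which the second player can continue. -/
def Alive (p : Pos (FreeGroup Bool)) : Prop := bb p ≠ 1 ∧ p.w * p.v ≠ p.v * p.w

theorem alive_half2 {q : Pos (FreeGroup Bool)} (h1 : bb q ≠ 1) (h2 : q.w * q.v ≠ q.v * q.w) :
    ∃ o, Alive (half2 q o) := by
  have key : ∀ o : Bool, (if o then q.w else q.v) * bb q ≠ bb q * (if o then q.w else q.v) →
      Alive (half2 q o) := by
    intro o ho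
    have h3 : (half2 q o).w * (half2 q o).v ≠ (half2 q o).v * (half2 q o).w :=
      fun h => ho (comm_of_conj h1 h)
    refine ⟨?_, h3⟩
    have h4 : bb (half2 q o) = cm (half2 q o).w (half2 q o).v := by
      have h5 := val_half2 q o
      simp only [bb] at h5 ⊢
      rw [h5]
      rfl
    rw [h4]
    exact cm_ne_one h3
  by_cases hw : q.w * bb q = bb q * q.w
  · refine ⟨false, key false fun hv => h2 ?_⟩
    exact comm_trans h1 hw hv
  · exact ⟨true, key true hw⟩

theorem alive_move {p : Pos (FreeGroup Bool)} (hp : Alive p) (a' : FreeGroup Bool) :
    ∃ o, Alive (move p a' o) := by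
  by_cases h : bb (half1 p a' true) = 1
  · have h1 : bb (half1 p a' false) ≠ 1 := by
      intro h2
      apply hp.1
      rw [bb_half1 p a', h, h2, one_mul]
    have h2 : (half1 p a' false).w = p.w := by
      have h3 : (half1 p a' false).w = p.w * bb (half1 p a' true) := by
        simp only [half1, bb, cm, if_true, Bool.false_eq_true, if_false]
        group
      rw [h3, h, mul_one]
    have h3 : (half1 p a' false).v = p.v := rfl
    obtain ⟨o, ho⟩ := alive_half2 h1 (by rw [h2, h3]; exact hp.2)
    exact ⟨(false, o), ho⟩
  · obtain ⟨o, ho⟩ := alive_half2 h hp.2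
    exact ⟨(true, o), ho⟩

/-- A position together with a strategy of the first player. -/
abbrev St : Type :=
  {x : Pos (FreeGroup Bool) × (List (Bool × Bool) → FreeGroup Bool) // Alive x.1}

/-- The answer of the second player. -/
noncomputable def opt (x : St) : Bool × Bool := Classical.choose (alive_move x.2 (x.1.2 []))

/-- The next position and the rest of the strategy. -/
noncomputable def nxt (x : St) : St :=
  ⟨(move x.1.1 (x.1.2 []) (opt x), fun l => x.1.2 (opt x :: l)),
    Classical.choose_spec (alive_move x.2 (x.1.2 []))⟩

theorem play_eq : ∀ (m : ℕ) (x : St),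
    play m x.1.1 x.1.2 (fun n => opt (nxt^[n] x)) = (nxt^[m] x).1.1
  | 0, _ => rfl
  | m + 1, x => by
    have h1 := play_eq m (nxt x)
    rw [Function.iterate_succ_apply]
    rw [← h1]
    rfl

theorem not_win {p : Pos (FreeGroup Bool)} (hp : Alive p) : ¬ Win p := by
  rintro ⟨s, hs⟩
  let x : St := ⟨(p, s), hp⟩
  have hal : ∀ m, Alive (play m p s (fun n => opt (nxt^[n] x))) := by
    intro m
    have h1 : play m p s (fun n => opt (nxt^[n] x)) = (nxt^[m] x).1.1 := play_eq m x
    rw [h1]
    exact (nxt^[m] x).2
  have hk := fun m => growth (hal m).2
  choose k hk using hk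
  obtain ⟨z, hz⟩ := hs (fun n => opt (nxt^[n] x)) k
  have hlt : ∀ m, (z (m + 1)).norm < (z m).norm := by
    intro m
    have h1 := hk m (z (m + 1))
    rw [← hz m] at h1
    exact h1
  have hle : ∀ m, (z m).norm + m ≤ (z 0).norm := by
    intro m
    induction m with
    | zero => exact le_rfl
    | succ m ih =>
      have := hlt m
      omega
  have := hle ((z 0).norm + 1)
  omega

theorem not_inK_free : ¬ InK (FreeGroup Bool) := by
  intro h
  have hne : FreeGroup.of true * FreeGroup.of false ≠ FreeGroup.of false * FreeGroup.of true := by
    decide
  exact not_win (p := ⟨FreeGroup.of false, [], FreeGroup.of true, FreeGroup.of false⟩)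
    ⟨cm_ne_one hne, hne⟩ (h _)

/-- There is a radical class of groups which is closed under Cartesian products, contains all
abelian groups, in particular the infinite cyclic group, and does not contain the free group of
rank two. -/
theorem result : ∃ K : ∀ (G : Type u) [Group G], Prop,
    IsRadicalClass K ∧ ClosedUnderProducts K ∧
    (∀ (G : Type u) [Group G], (∀ a b : G, a * b = b * a) → K G) ∧
    K (ULift.{u} (Multiplicative ℤ)) ∧ ¬ K (ULift.{u} (FreeGroup Bool)) := by
  refine ⟨fun G _ => InK G, ⟨?_, ?_, ?_⟩, ?_, ?_, ?_, ?_⟩
  · intro G H _ _ f hf hG
    exact hG.image f hf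
  · intro G _ N hN hG
    exact hG.normal hN
  · intro G _ h
    exact InK.join h
  · intro ι G _ h
    exact InK.pi h
  · intro G _ h
    exact InK.of_comm h
  · exact InK.of_comm (fun a b => mul_comm a b)
  · intro h
    exact not_inK_free (h.image (MulEquiv.ulift (α := FreeGroup Bool)).toMonoidHom
      (MulEquiv.ulift (α := FreeGroup Bool)).surjective)

end Pool.Agent.Results.MP_cf13c7_al.CartesianRadical
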